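import Pool.Agent.K3h8.SF.Stm2

/-!
# Brick LIFT of project SF: lifting the parity operator
-/

set_option autoImplicit false
set_option linter.unusedSectionVars false
set_option linter.unusedSimpArgs false
set_option backward.isDefEq.respectTransparency false
set_option backward.defeqAttrib.useBackward true

open CategoryTheory Limits MonoidalCategory
open Pool.Agent.Y112.SR Pool.Agent.Y112.KD Pool.Agent.Y112.SC Pool.Agent.R905 Pool.Agent.K3h8.KS
open Pool.Agent.K3h8.SF

namespace Pool.Agent.K3h58.SF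

universe v u w

variable {C : Type u} [Category.{v} C] [Preadditive C] [Linear ℚ C] [MonoidalCategory C]
  [MonoidalPreadditive C] [MonoidalLinear ℚ C] [SymmetricCategory C] [RightRigidCategory C]

/-- powers of a conjugate -/
theorem pow_conj {M P : C} (j : P ⟶ M) (q : M ⟶ P) (hjq : j ≫ q = 𝟙 P) (g : End P) (n : ℕ) :
    (en (q ≫ (g : P ⟶ P) ≫ j)) ^ (n + 1) = en (q ≫ ((g ^ (n + 1) : End P) : P ⟶ P) ≫ j) := by
  induction n with
  | zero => rw [zero_add, pow_one, pow_one]
  | succ n ih =>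
    rw [pow_succ, ih, pow_succ g (n + 1), End.mul_def, End.mul_def]
    simp only [en, Category.assoc]
    rw [reassoc_of% hjq]

/-- the idempotent -/
theorem exists_idem {K : Type w} [Field K] (R : SuperRealisation C K) (X : C)
    (y : X ⟶ X) (hy : R.H.map y = 𝟙 _)
    (hf : ∀ f : End X, R.H.map (f : X ⟶ X) = 0 → ∃ L : ℕ, y ≫ ((f ^ L : End X) : X ⟶ X) = 0) :
    ∃ e : X ⟶ X, e ≫ e = e ∧ R.H.map e = 0 ∧
    (∀ f : End X, R.H.map (f : X ⟶ X) = 0 →
      ∃ L : ℕ, ((f ^ L : End X) : X ⟶ X) = e ≫ ((f ^ L : End X) : X ⟶ X)) := by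
  obtain ⟨n, hn⟩ : ∃ n : End X, n = 1 - en y := ⟨_, rfl⟩
  have hHn : R.H.map (n : X ⟶ X) = 0 := by
    rw [hn]
    change R.H.map (𝟙 X - y) = 0
    rw [Functor.map_sub, hy, CategoryTheory.Functor.map_id, sub_self]
  have key : ∀ f : End X, R.H.map (f : X ⟶ X) = 0 → ∃ L : ℕ, ∀ k : ℕ, f ^ L * n ^ k = f ^ L := by
    intro f h0
    obtain ⟨L, hL⟩ := hf f h0
    refine ⟨L, fun k => ?_⟩
    have h1 : f ^ L * n = f ^ L := by
      have h2 : f ^ L * en y = 0 := hL
      rw [hn, mul_sub, mul_one, h2, sub_zero]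
    induction k with
    | zero => rw [pow_zero, mul_one]
    | succ k ih => rw [pow_succ, ← mul_assoc, ih, h1]
  obtain ⟨L, hL⟩ := key n hHn
  refine ⟨((n ^ (L + 1) : End X) : X ⟶ X), ?_, ?_, fun f h0 => ?_⟩
  · change n ^ (L + 1) * n ^ (L + 1) = n ^ (L + 1)
    have h1 := hL 1
    rw [pow_one] at h1
    rw [pow_succ n L, h1]
    exact hL L
  · rw [pow_succ, End.mul_def, Functor.map_comp, hHn, zero_comp]
  · obtain ⟨L', hL'⟩ := key f h0
    refine ⟨L', ?_⟩
    exact (hL' (L + 1)).symm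

theorem t_LIFT [IsIdempotentComplete C] : LIFT.{v, u, w} C := by
  intro K _ R X hC y hy hf
  have hc := R_charZero R
  obtain ⟨e, he, hHe, hef⟩ := exists_idem R X y hy hf
  refine ⟨e, he, hHe, hef, ?_⟩
  have he' : (𝟙 X - e) ≫ (𝟙 X - e) = 𝟙 X - e := by
    rw [Preadditive.sub_comp, Preadditive.comp_sub, Preadditive.comp_sub, he]
    simp
  obtain ⟨M', i', r', h1, h2⟩ := IsIdempotentComplete.idempotents_split X (𝟙 X - e) he'
  have her : e ≫ r' = 0 := by
    have h3 : e ≫ r' = e ≫ (r' ≫ i') ≫ r' := by rw [Category.assoc, h1, Category.comp_id]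
    rw [h3, h2, Preadditive.sub_comp, Preadditive.comp_sub, Category.id_comp, ← Category.assoc e e,
      he, sub_self]
  have hie : i' ≫ e = 0 := by
    have h3 : i' ≫ e = i' ≫ (r' ≫ i') ≫ e := by rw [Category.assoc, reassoc_of% h1]
    rw [h3, h2, Preadditive.sub_comp, Category.id_comp, he, sub_self, comp_zero]
  have hnil : HomNil R M' := by
    intro g hg
    obtain ⟨L, hL⟩ := hef (en (r' ≫ (g : M' ⟶ M') ≫ i'))
      (by rw [en, Functor.map_comp, Functor.map_comp, hg]; simp)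
    have hp := pow_conj i' r' h1 g L
    have h3 : ((en (r' ≫ (g : M' ⟶ M') ≫ i') ^ (L + 1) : End X) : X ⟶ X) =
        e ≫ ((en (r' ≫ (g : M' ⟶ M') ≫ i') ^ (L + 1) : End X) : X ⟶ X) := by
      rw [pow_succ', End.mul_def]
      nth_rewrite 1 [hL]
      rw [Category.assoc]
    rw [hp] at h3
    have h4 : e ≫ en (r' ≫ ((g ^ (L + 1) : End M') : M' ⟶ M') ≫ i') = 0 := by
      rw [en, reassoc_of% her, zero_comp]
    rw [h4] at h3
    refine ⟨L + 1, ?_⟩
    have h5 : i' ≫ (r' ≫ ((g ^ (L + 1) : End M') : M' ⟶ M') ≫ i') ≫ r' =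
        i' ≫ (0 : X ⟶ X) ≫ r' := congrArg (fun z : X ⟶ X => i' ≫ z ≫ r') h3
    simp only [Category.assoc, reassoc_of% h1, h1, Category.comp_id, zero_comp, comp_zero] at h5
    exact h5
  have hC' : R.CPlus M' := cplus_retract R i' r' h1 hC
  obtain ⟨E, O, a, b, a', b', k1, k2, k3, hE, hO⟩ := exists_parts R hC' hnil
  obtain ⟨s', hs'⟩ : ∃ s' : M' ⟶ M', s' = b ≫ a - b' ≫ a' := ⟨_, rfl⟩
  have hpp : (b ≫ a) ≫ (b ≫ a) = b ≫ a := by rw [Category.assoc, reassoc_of% k1]
  have hs2 : s' ≫ s' = 𝟙 M' := by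
    have h3 : b' ≫ a' = 𝟙 M' - b ≫ a := by rw [← k3]; abel
    rw [hs', h3]
    simp only [Preadditive.sub_comp, Preadditive.comp_sub, Category.id_comp, Category.comp_id, hpp]
    abel
  have hHs' : R.H.map s' = R.par M' := by
    have h3 : R.H.map (b ≫ a) ≫ R.par M' = R.H.map (b ≫ a) := by
      rw [Functor.map_comp, Category.assoc, R.par_natural, hE, one_smul, Category.id_comp]
    have h4 : R.H.map (b' ≫ a') ≫ R.par M' = -R.H.map (b' ≫ a') := by
      rw [Functor.map_comp, Category.assoc, R.par_natural, hO]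
      simp
    calc R.H.map s' = R.H.map (b ≫ a) - R.H.map (b' ≫ a') := by rw [hs', Functor.map_sub]
      _ = R.H.map (b ≫ a + b' ≫ a') ≫ R.par M' := by
        rw [Functor.map_add, Preadditive.add_comp, h3, h4, sub_eq_add_neg]
      _ = R.par M' := by rw [k3]; simp
  intro d hd
  have hdd : d * d = 1 := by rcases hd with rfl | rfl <;> norm_num
  refine ⟨r' ≫ s' ≫ i' + d • e, ?_, ?_, ?_⟩
  · have c1 : (r' ≫ s' ≫ i') ≫ (r' ≫ s' ≫ i') = 𝟙 X - e := by
      rw [← h2]
      simp only [Category.assoc, reassoc_of% h1]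
      rw [reassoc_of% hs2]
    have c2 : (r' ≫ s' ≫ i') ≫ (d • e) = 0 := by
      simp only [Category.assoc, Linear.comp_smul, hie, comp_zero, smul_zero]
    have c3 : (d • e) ≫ (r' ≫ s' ≫ i') = 0 := by
      rw [Linear.smul_comp, reassoc_of% her, zero_comp, smul_zero]
    have c4 : (d • e) ≫ (d • e) = e := by
      rw [Linear.smul_comp, Linear.comp_smul, he, smul_smul, hdd, one_smul]
    rw [Preadditive.add_comp, Preadditive.comp_add, Preadditive.comp_add, c1, c2, c3, c4]
    abel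
  · rw [Functor.map_add, R_smul, hHe, smul_zero, add_zero, Functor.map_comp, Functor.map_comp,
      hHs', ← R.par_natural, ← Category.assoc, ← Functor.map_comp, h2, Functor.map_sub, hHe,
      CategoryTheory.Functor.map_id, sub_zero, Category.id_comp]
  · rw [Preadditive.add_comp, Linear.smul_comp, he]
    simp only [Category.assoc, hie, comp_zero, zero_add]

end Pool.Agent.K3h58.SF
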